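import Mathlib

set_option autoImplicit false

namespace Pool.Agent.Results.MP_ff84c4_al.Counter

open Set Topology Filter

@[reducible] def markov (G : Type) [Group G] : TopologicalSpace G :=
  sSup {t | @IsTopologicalGroup G t _ ∧ @T2Space G t}

@[reducible] def centr (G : Type) [Group G] : TopologicalSpace G :=
  TopologicalSpace.generateFrom {U | ∃ a b : G, U = {x | x * b * x⁻¹ = a * b * a⁻¹}}

abbrev V : Type := ℕ →₀ ZMod 2

noncomputable def e (j : ℕ) : V := Finsupp.single j 1

def Sup (A : Set ℕ) (g : V ≃ₗ[ZMod 2] V) : Prop :=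
  (∀ j ∉ A, g (e j) = e j) ∧ ∀ v, ∀ i ∉ A, g v i = v i

lemma Sup.mono {A B : Set ℕ} {g} (h : Sup A g) (h' : A ⊆ B) : Sup B g :=
  ⟨fun j hj => h.1 j fun c => hj (h' c), fun v i hi => h.2 v i fun c => hi (h' c)⟩

def G : Subgroup (V ≃ₗ[ZMod 2] V) where
  carrier := {g | ∃ A, A.Finite ∧ Sup A g}
  one_mem' := ⟨∅, finite_empty, fun _ _ => rfl, fun _ _ _ => rfl⟩
  mul_mem' := fun {g h} ⟨A, h1, h2⟩ ⟨B, h3, h4⟩ => ⟨A ∪ B, h1.union h3, fun j hj => by
    rw [LinearEquiv.mul_apply, h4.1 j fun c => hj (Or.inr c), h2.1 j fun c => hj (Or.inl c)],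
    fun v i hi => by
    rw [LinearEquiv.mul_apply, h2.2 _ i fun c => hi (Or.inl c), h4.2 _ i fun c => hi (Or.inr c)]⟩
  inv_mem' := fun {g} ⟨A, h1, h2⟩ => ⟨A, h1, fun j hj => g.symm_apply_eq.2 (h2.1 j hj).symm,
    fun v i hi => (h2.2 _ i hi).symm.trans (congrArg (· i) (g.apply_symm_apply v))⟩

noncomputable def T {i j : ℕ} (h : i ≠ j) : G :=
  ⟨LinearEquiv.transvection (f := Finsupp.lapply j) (v := e i) (by simp [e, h]), {i, j}, toFinite _,
    fun k hk => by simp_all [LinearMap.transvection.apply, e],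
    fun v k hk => by simp_all [LinearMap.transvection.apply, e]⟩

lemma T_apply {i j : ℕ} (h : i ≠ j) (v : V) : (T h).1 v = v + v j • e i := rfl

lemma comm_T {i j : ℕ} (h : i ≠ j) {g : G} :
    T h * g = g * T h ↔ g.1 (e i) = e i ∧ ∀ v, g.1 v j = v j := by
  have h1 : T h * g = g * T h ↔ ∀ v : V, g.1 v j • e i = v j • g.1 (e i) := by
    simp [Subtype.ext_iff, LinearEquiv.ext_iff, T_apply]
  refine h1.trans ⟨fun h2 => ?_, fun h2 v => by rw [h2.1, h2.2]⟩
  have h3 : g.1 (e i) = e i := by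
    have h3 := h2 (e j)
    have h4 : g.1 (e i) ≠ 0 := by simp [e]
    rw [show e j j = 1 from Finsupp.single_eq_same, one_smul] at h3
    rcases (by decide : ∀ c : ZMod 2, c = 0 ∨ c = 1) (g.1 (e j) j) with h5 | h5 <;> rw [h5] at h3
    · exact absurd (h3.symm.trans (zero_smul _ _)) h4
    · exact h3.symm.trans (one_smul _ _)
  refine ⟨h3, fun v => ?_⟩
  have := h2 v
  rw [h3] at this
  simpa [e] using congrArg (· i) this

lemma ext' {g h : G} (H : ∀ j, g.1 (e j) = h.1 (e j)) : g = h :=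
  Subtype.ext (LinearEquiv.toLinearMap_injective (Finsupp.lhom_ext' fun j =>
    LinearMap.ext_ring (H j)))

lemma fin {A : Set ℕ} (hA : A.Finite) : {g : G | Sup A g.1}.Finite := by
  have := hA.to_subtype
  refine Finite.of_finite_image (f := fun (g : G) (i j : A) => g.1 (e j) i) (toFinite _)
    fun g hg h hh H => ext' fun j => ?_
  by_cases hj : j ∈ A
  · ext i
    by_cases hi : i ∈ A
    · exact congrFun (congrFun H ⟨i, hi⟩) ⟨j, hj⟩
    · rw [hg.2 _ i hi, hh.2 _ i hi]
  · rw [hg.1 j hj, hh.1 j hj]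

theorem result : ∃ (G : Type) (_ : Group G), Countable G ∧ Subgroup.center G = ⊥ ∧
    (∀ F : Set G, F.Finite → F.centralizer.centralizer.Finite) ∧ markov G ≠ centr G := by
  refine ⟨G, inferInstance, ?_, ?_, fun F hF => ?_, fun h => ?_⟩
  · exact countable_univ_iff.1 ((Countable.biUnion (countable_ofPred_finite_subset countable_univ)
      fun A hA => (fin hA.1).countable).mono fun g _ => let ⟨A, h1, h2⟩ := g.2
        mem_iUnion₂.2 ⟨A, ⟨h1, subset_univ _⟩, h2⟩)
  · exact eq_bot_iff.2 fun g hg => ext' fun j =>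
      ((comm_T j.succ_ne_self.symm).1 (Subgroup.mem_center_iff.1 hg _)).1
  · choose A h1 h2 using fun g : G => g.2
    have h3 := hF.biUnion fun g _ => h1 g
    have h4 : ∀ i ∉ ⋃ g ∈ F, A g, ∀ j ∉ ⋃ g ∈ F, A g, ∀ h : i ≠ j, T h ∈ F.centralizer :=
      fun i hi j hj h g hg => have := (h2 g).mono (subset_biUnion_of_mem (u := A) hg)
        ((comm_T h).2 ⟨this.1 i hi, fun v => this.2 v j hj⟩).symm
    have h5 : ∀ i, ∃ j ∉ ⋃ g ∈ F, A g, i ≠ j := fun i =>
      ((h3.insert i).exists_notMem).imp fun j hj => ⟨fun c => hj (Or.inr c), fun c => hj (Or.inl c.symm)⟩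
    refine (fin h3).subset fun g hg => ⟨fun i hi => ?_, fun v i hi => ?_⟩ <;>
      obtain ⟨j, h6, h7⟩ := h5 i
    · exact ((comm_T h7).1 (hg _ (h4 i hi j h6 h7))).1
    · exact ((comm_T h7.symm).1 (hg _ (h4 j h6 i hi h7.symm))).2 v
  · let _ : TopologicalSpace V := ⊥
    have : DiscreteTopology V := ⟨rfl⟩
    let φ : G → V → V := fun g v => g.1 v
    let τ : TopologicalSpace G := TopologicalSpace.induced φ inferInstance
    have c1 : ∀ v, Continuous fun g : G => g.1 v := fun v =>
      (continuous_apply v).comp continuous_induced_dom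
    have c2 : IsTopologicalGroup G :=
      { continuous_mul := continuous_induced_rng.2 (continuous_pi fun v =>
          (continuous_prod_of_discrete_right (f := fun p : G × V => p.1.1 p.2).2 c1).comp
            (f := fun p : G × G => (p.1, p.2.1 v)) (continuous_fst.prodMk ((c1 v).comp continuous_snd)))
        continuous_inv := continuous_induced_rng.2 (continuous_pi fun v =>
          continuous_discrete_rng.2 fun w => by
            convert (isOpen_discrete {v}).preimage (c1 w) using 1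
            exact Set.ext fun g => g.1.symm_apply_eq.trans eq_comm) }
    have c3 : T2Space G := T2Space.of_injective_continuous
      (fun g h H => ext' fun j => congrFun H _) (continuous_induced_dom (f := φ))
    have c4 : IsOpen[markov G] {x | x * T zero_ne_one * x⁻¹ = 1 * T zero_ne_one * 1⁻¹} :=
      h ▸ TopologicalSpace.isOpen_generateFrom_of_mem ⟨_, _, rfl⟩
    obtain ⟨U, c5, c6⟩ := isOpen_induced_iff.1 (isOpen_sSup_iff.1 c4 τ ⟨c2, c3⟩)
    obtain ⟨F, u, c7, c8⟩ := isOpen_pi_iff.1 c5 (φ 1) (c6.ge (show (1 : G) ∈ _ from rfl))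
    obtain ⟨n, hn⟩ := (insert 1 (F.biUnion Finsupp.support)).exists_notMem
    simp only [Finset.mem_insert, Finset.mem_biUnion, Finsupp.mem_support_iff, not_or, not_exists,
      not_and, not_not] at hn
    have c9 := c6.le (c8 (a := φ (T (Ne.symm hn.1))) fun v hv => by
      simpa [φ, T_apply, hn.2 v hv] using (c7 v hv).2)
    have := ((comm_T zero_ne_one).1 (mul_inv_eq_iff_eq_mul.1 (c9.trans (by simp))).symm).2 (e n)
    simp [T_apply, e] at this

end Pool.Agent.Results.MP_ff84c4_al.Counter
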